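import Pool.Agent.H76Z.EpiL1

set_option autoImplicit false

namespace Pool.Agent.Results.MP_862e0f_al.BanachEpiNotDense

open Pool.Agent.H76Z

universe u v

/-- There is a morphism between Banach-Lie groups which is an epimorphism in the category of all
locally convex Lie groups and whose range is not dense. -/
theorem result : ∃ (E : Type) (_ : NormedAddCommGroup E) (_ : NormedSpace ℝ E)
    (_ : CompleteSpace E) (E' : Type) (_ : NormedAddCommGroup E') (_ : NormedSpace ℝ E')
    (_ : CompleteSpace E') (G : Type) (_ : Group G) (_ : TopologicalSpace G) (_ : T2Space G)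
    (H : Type) (_ : Group H) (_ : TopologicalSpace H) (_ : T2Space H)
    (A : SmoothAtlas E G) (B : SmoothAtlas E' H) (f : G →* H),
    IsLieGroup A ∧ IsLieGroup B ∧ SmoothMap A B f ∧ ¬ DenseRange f ∧
    ∀ (F : Type u) [AddCommGroup F] [Module ℝ F] [TopologicalSpace F] [IsTopologicalAddGroup F]
      [ContinuousSMul ℝ F] [LocallyConvexSpace ℝ F] [T2Space F]
      (K : Type v) [Group K] [TopologicalSpace K] [T2Space K] (C : SmoothAtlas F K),
      IsLieGroup C → ∀ g₁ g₂ : H →* K, SmoothMap B C g₁ → SmoothMap B C g₂ →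
        g₁.comp f = g₂.comp f → g₁ = g₂ :=
  ⟨EpiL.Z0, inferInstance, inferInstance, inferInstance, EpiL.H1, inferInstance, inferInstance,
    inferInstance, EpiL.Gd, inferInstance, inferInstance, inferInstance, Multiplicative EpiL.H1,
    inferInstance, inferInstance, (addChart EpiL.H1).symm.t2Space, EpiL.atlasG,
    globalAtlas (addChart EpiL.H1), EpiL.incl, EpiL.lieG, add_lie _, EpiL.incl_smooth,
    EpiL.not_dense, fun _ _ _ _ _ _ _ _ _ _ _ _ C hC g₁ g₂ s₁ s₂ h => EpiL.epi C hC g₁ g₂ s₁ s₂ h⟩

end Pool.Agent.Results.MP_862e0f_al.BanachEpiNotDense
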